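import Pool.Agent.Helper3.CC.Tab

/-! The check of one type. -/

set_option autoImplicit false
set_option maxRecDepth 1000000
set_option maxHeartbeats 40000000

namespace Pool.Agent.Helper3.CC

open Pool.Agent.Helper3.OP

theorem leaf0 : treeP ok leaf 0 0 0 0 = true := by decide +kernel

end Pool.Agent.Helper3.CC
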