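import Pool.Agent.Helper3.CC.Data
import Pool.Agent.Helper3.CC.L0
import Pool.Agent.Helper3.CC.L2
import Pool.Agent.Helper3.CC.L3
import Pool.Agent.Helper3.CC.L4
import Pool.Agent.Helper3.CC.L5
import Pool.Agent.Helper3.CC.L6
import Pool.Agent.Helper3.CC.L7
import Pool.Agent.Helper3.CC.L9
import Pool.Agent.Helper3.CC.L10
import Pool.Agent.Helper3.CC.L11
import Pool.Agent.Helper3.CC.L12
import Pool.Agent.Helper3.CC.L14

/-! The bound with an error term. -/

set_option autoImplicit false
set_option linter.unusedVariables false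
set_option maxHeartbeats 4000000
open Finset

namespace Pool.Agent.Helper3.CC

open Pool.Agent.Helper3.OP

section

attribute [local irreducible] leaf treeP ok

theorem disp {b012 b013 b023 b123 : ℕ} (h0 : b012 ≤ 1) (h1 : b013 ≤ 1) (h2 : b023 ≤ 1)
    (h3 : b123 ≤ 1) (h : ok (c4 b012 b013 b023 b123) = true) :
    treeP ok leaf b012 b013 b023 b123 = true := by
  interval_cases b012 <;> interval_cases b013 <;> interval_cases b023 <;> interval_cases b123 <;>
    first
      | exact leaf0
      | exact leaf2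
      | exact leaf3
      | exact leaf4
      | exact leaf5
      | exact leaf6
      | exact leaf7
      | exact leaf9
      | exact leaf10
      | exact leaf11
      | exact leaf12
      | exact leaf14
      | exact absurd h (by decide +kernel)

end

theorem leaf_ok : Leaf ok 51539607552 0 ix q ix2 q2 := by
  intro b012 b013 b023 b123 b014 b024 b124 b034 b134 b234 b015 b025 b125 b035 b135 b235 b045 b145 b245 b345 h_b012 h_b013 h_b023 h_b123 h_b014 h_b024 h_b124 h_b034 h_b134 h_b234 h_b015 h_b025 h_b125 h_b035 h_b135 h_b235 h_b045 h_b145 h_b245 h_b345 hok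
  have hl : leaf b012 b013 b023 b123 b014 b024 b124 b034 b134 b234 b015 b025 b125 b035 b135 b235 b045 b145 b245 b345 = true :=
    tree_spec (disp h_b012 h_b013 h_b023 h_b123 hok.1) h_b014 h_b024 h_b124 h_b034 h_b134 h_b234 h_b015 h_b025 h_b125 h_b035 h_b135 h_b235 h_b045 h_b145 h_b245 h_b345 hok
  unfold leaf at hl
  have hl2 := Nat.le_of_ble_eq_true hl
  have e1 := pairN_eq ix qn 140737488355328 b012 b013 b023 b123 b014 b024 b124 b034 b134 b234 b015 b025 b125 b035 b135 b235 b045 b145 b245 b345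
  have e2 := twoN_eq ix2 qn2 140737488355328 b012 b013 b023 b123 b014 b024 b124 b034 b134 b234 b015 b025 b125 b035 b135 b235 b045 b145 b245 b345
  have hl3 : (9 * 51539607552 * (edgN b012 b013 b023 b123 b014 b024 b124 b034 b134 b234 b015 b025 b125 b035 b135 b235 b045 b145 b245 b345 : ℤ) + 2 * (pairN ix qn b012 b013 b023 b123 b014 b024 b124 b034 b134 b234 b015 b025 b125 b035 b135 b235 b045 b145 b245 b345 : ℤ) + 2 * (twoN ix2 qn2 b012 b013 b023 b123 b014 b024 b124 b034 b134 b234 b015 b025 b125 b035 b135 b235 b045 b145 b245 b345 : ℤ)) ≤ 16893652563394560 := by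
    have hl4 : (9 * 51539607552 * edgN b012 b013 b023 b123 b014 b024 b124 b034 b134 b234 b015 b025 b125 b035 b135 b235 b045 b145 b245 b345 + 2 * pairN ix qn b012 b013 b023 b123 b014 b024 b124 b034 b134 b234 b015 b025 b125 b035 b135 b235 b045 b145 b245 b345 + 2 * twoN ix2 qn2 b012 b013 b023 b123 b014 b024 b124 b034 b134 b234 b015 b025 b125 b035 b135 b235 b045 b145 b245 b345) ≤ 16893652563394560 := by
      simp only [Nat.add_eq, Nat.mul_eq] at hl2
      omega
    exact_mod_cast hl4
  rw [edgN_eq] at hl3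
  have e4 : pairSum ix q b012 b013 b023 b123 b014 b024 b124 b034 b134 b234 b015 b025 b125 b035 b135 b235 b045 b145 b245 b345 = pairSum ix (fun t i j => (qn t i j : ℤ) - (140737488355328 : ℕ)) b012 b013 b023 b123 b014 b024 b124 b034 b134 b234 b015 b025 b125 b035 b135 b235 b045 b145 b245 b345 := rfl
  have e5 : twoSum ix2 q2 b012 b013 b023 b123 b014 b024 b124 b034 b134 b234 b015 b025 b125 b035 b135 b235 b045 b145 b245 b345 = twoSum ix2 (fun i j => (qn2 i j : ℤ) - (140737488355328 : ℕ)) b012 b013 b023 b123 b014 b024 b124 b034 b134 b234 b015 b025 b125 b035 b135 b235 b045 b145 b245 b345 := rfl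
  rw [e4, e5]
  push_cast at *
  linarith

theorem approx : ∃ K : ℝ, ∀ (V : Type) [Fintype V] [LinearOrder V] (H : Finset (Finset V)),
    (∀ A ∈ H, A.card = 3) → (∀ T ∈ P V 4, ok (C4 H T) = true) →
    (H.card : ℝ) ≤ 5 / 54 * (Fintype.card V : ℝ) ^ 3 + K * (Fintype.card V : ℝ) ^ 2 := by
  refine ⟨_, fun V _ _ H h3 hok => approx_of (κ := 51539607552) (A := 2 ^ 48 + 24 * 2 ^ 48) (B := 0 * 225)
    (by norm_num) (by norm_num) (by norm_num) ?_ ?_⟩
  · calc H.card ≤ (P V 3).card := card_le_card fun A hA => mem_P.2 (h3 A hA)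
      _ = (Fintype.card V).choose 3 := by
        unfold P
        rw [card_powersetCard, card_univ]
  · intro hn
    have h := main_ineq h3 hok (c := 0) (by norm_num) ixok q_comm psd (M := 2 ^ 48) (by norm_num)
      (fun t _ i _ => q_le t i i) ix2ok q2_comm psdTwo (M2 := 2 ^ 48) (by norm_num)
      (fun i _ j _ => q2_le i j) leaf_ok hn
    have h2 : (((9 * 51539607552 * ((Fintype.card V - 3).choose 3 : ℕ) * H.card : ℤ)) : ℝ) ≤
      ((100 * 51539607552 * ((Fintype.card V).choose 6 : ℕ) +
      (2 ^ 48 + 24 * 2 ^ 48) * ((Fintype.card V).choose 4 : ℕ) * Fintype.card V +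
      0 * (225 * ((Fintype.card V).choose 3 : ℕ) * Fintype.card V ^ 2) : ℤ) : ℝ) := by
      exact_mod_cast h
    push_cast at h2 ⊢
    linarith

end Pool.Agent.Helper3.CC
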