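import Pool.Agent.Helper3.OP.Tree
import Pool.Agent.Helper3.CC.DX
import Pool.Agent.Helper3.CC.D0
import Pool.Agent.Helper3.CC.D2
import Pool.Agent.Helper3.CC.D3
import Pool.Agent.Helper3.CC.D4
import Pool.Agent.Helper3.CC.D5
import Pool.Agent.Helper3.CC.D6
import Pool.Agent.Helper3.CC.D7
import Pool.Agent.Helper3.CC.D9
import Pool.Agent.Helper3.CC.D10
import Pool.Agent.Helper3.CC.D11
import Pool.Agent.Helper3.CC.D12
import Pool.Agent.Helper3.CC.D14

/-! The data. -/

set_option autoImplicit false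
set_option linter.unusedVariables false
set_option maxRecDepth 1000000
set_option maxHeartbeats 40000000
open Finset

namespace Pool.Agent.Helper3.CC

open Pool.Agent.Helper3.OP

noncomputable section

theorem ok_cases {t : ℕ} (h : ok t = true) : t = 0 ∨ t = 2 ∨ t = 3 ∨ t = 4 ∨ t = 5 ∨ t = 6 ∨ t = 7 ∨ t = 9 ∨ t = 10 ∨ t = 11 ∨ t = 12 ∨ t = 14 := by
  rcases Nat.lt_or_ge t 16 with h1 | h1
  · interval_cases t <;> first | exact absurd h (by decide) | simp
  · exfalso
    unfold ok at h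
    have h2 : Nat.shiftRight 24317 t = 0 := by
      show 24317 >>> t = 0
      rw [Nat.shiftRight_eq_div_pow]
      apply Nat.div_eq_of_lt
      calc 24317 < 2 ^ 16 := by norm_num
        _ ≤ 2 ^ t := Nat.pow_le_pow_right (by norm_num) h1
    rw [h2] at h
    exact absurd h (by decide)

theorem q_comm (t i j : ℕ) : q t i j = q t j i := by
  unfold q qn; rw [look_comm]
theorem q_le (t i j : ℕ) : q t i j ≤ 2 ^ 48 := qz_le 48 (TT t) 140737488355328 i j

theorem psd {V : Type} (t : ℕ) (ht : ok t = true) (s : Finset V) (I : V → ℕ)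
    (hI : ∀ x ∈ s, I x < N t) : 0 ≤ ∑ x ∈ s, ∑ y ∈ s, q t (I x) (I y) := by
  rcases ok_cases ht with rfl | rfl | rfl | rfl | rfl | rfl | rfl | rfl | rfl | rfl | rfl | rfl
  · have hN : N 0 = 134 := by decide +kernel
    rw [hN] at hI
    exact psd0 s I hI
  · have hN : N 2 = 112 := by decide +kernel
    rw [hN] at hI
    exact psd2 s I hI
  · have hN : N 3 = 103 := by decide +kernel
    rw [hN] at hI
    exact psd3 s I hI
  · have hN : N 4 = 104 := by decide +kernel
    rw [hN] at hI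
    exact psd4 s I hI
  · have hN : N 5 = 94 := by decide +kernel
    rw [hN] at hI
    exact psd5 s I hI
  · have hN : N 6 = 104 := by decide +kernel
    rw [hN] at hI
    exact psd6 s I hI
  · have hN : N 7 = 103 := by decide +kernel
    rw [hN] at hI
    exact psd7 s I hI
  · have hN : N 9 = 97 := by decide +kernel
    rw [hN] at hI
    exact psd9 s I hI
  · have hN : N 10 = 103 := by decide +kernel
    rw [hN] at hI
    exact psd10 s I hI
  · have hN : N 11 = 94 := by decide +kernel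
    rw [hN] at hI
    exact psd11 s I hI
  · have hN : N 12 = 99 := by decide +kernel
    rw [hN] at hI
    exact psd12 s I hI
  · have hN : N 14 = 103 := by decide +kernel
    rw [hN] at hI
    exact psd14 s I hI

def ixchk : Bool :=
  B2 fun b0 => B2 fun b1 => B2 fun b2 => B2 fun b3 => imp (ok (c4 b0 b1 b2 b3)) (
  B2 fun b4 => B2 fun b5 => B2 fun b6 => imp (ok (c4 b0 b4 b5 b6)) (
  B2 fun b7 => B2 fun b8 => imp (ok (c4 b1 b4 b7 b8)) (
  B2 fun b9 => imp (ok (c4 b2 b5 b7 b9)) (imp (ok (c4 b3 b6 b8 b9)) (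
    cond (Nat.ble (Nat.succ (ix 0 (c10 b0 b1 b2 b3 b4 b5 b6 b7 b8 b9))) (N (c4 b3 b6 b8 b9))) (
    cond (Nat.ble (Nat.succ (ix 1 (c10 b0 b1 b2 b3 b4 b5 b6 b7 b8 b9))) (N (c4 b2 b5 b7 b9))) (
    cond (Nat.ble (Nat.succ (ix 2 (c10 b0 b1 b2 b3 b4 b5 b6 b7 b8 b9))) (N (c4 b1 b4 b7 b8))) (
    cond (Nat.ble (Nat.succ (ix 3 (c10 b0 b1 b2 b3 b4 b5 b6 b7 b8 b9))) (N (c4 b0 b4 b5 b6))) (
    Nat.ble (Nat.succ (ix 4 (c10 b0 b1 b2 b3 b4 b5 b6 b7 b8 b9))) (N (c4 b0 b1 b2 b3)))
      false) false) false) false)))))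

theorem cond_and {a b : Bool} (h : cond a b false = true) : a = true ∧ b = true := by
  cases a
  · exact Bool.noConfusion h
  · exact ⟨rfl, h⟩

theorem ixchk_true : ixchk = true := by decide +kernel

theorem ixok : IxOk ok ix N := by
  intro b0 b1 b2 b3 b4 b5 b6 b7 b8 b9 h0 h1 h2 h3 h4 h5 h6 h7 h8 h9 o0 o1 o2 o3 o4
  have h := ixchk_true
  unfold ixchk at h
  replace h := B2_true h h0
  replace h := B2_true h h1
  replace h := B2_true h h2
  replace h := B2_true h h3
  replace h := imp_true h o0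
  replace h := B2_true h h4
  replace h := B2_true h h5
  replace h := B2_true h h6
  replace h := imp_true h o1
  replace h := B2_true h h7
  replace h := B2_true h h8
  replace h := imp_true h o2
  replace h := B2_true h h9
  replace h := imp_true h o3
  replace h := imp_true h o4
  obtain ⟨i0, h⟩ := cond_and h
  obtain ⟨i1, h⟩ := cond_and h
  obtain ⟨i2, h⟩ := cond_and h
  obtain ⟨i3, h⟩ := cond_and h
  exact ⟨Nat.le_of_ble_eq_true i0, Nat.le_of_ble_eq_true i1, Nat.le_of_ble_eq_true i2,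
    Nat.le_of_ble_eq_true i3, Nat.le_of_ble_eq_true h⟩

def ix2chk : Bool :=
  B2 fun b0 => B2 fun b1 => B2 fun b2 => B2 fun b3 => imp (ok (c4 b0 b1 b2 b3)) (
    cond (Nat.ble (Nat.succ (ix2 3 (c4 b0 b1 b2 b3))) 72) (
    cond (Nat.ble (Nat.succ (ix2 5 (c4 b0 b1 b2 b3))) 72) (
    cond (Nat.ble (Nat.succ (ix2 6 (c4 b0 b1 b2 b3))) 72) (
    cond (Nat.ble (Nat.succ (ix2 9 (c4 b0 b1 b2 b3))) 72) (
    cond (Nat.ble (Nat.succ (ix2 10 (c4 b0 b1 b2 b3))) 72) (
    Nat.ble (Nat.succ (ix2 12 (c4 b0 b1 b2 b3))) 72)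
      false) false) false) false) false)

theorem ix2chk_true : ix2chk = true := by decide +kernel

theorem ix2ok : Ix2Ok ok ix2 72 := by
  intro b0 b1 b2 b3 h0 h1 h2 h3 o0
  have h := ix2chk_true
  unfold ix2chk at h
  replace h := B2_true h h0
  replace h := B2_true h h1
  replace h := B2_true h h2
  replace h := B2_true h h3
  replace h := imp_true h o0
  obtain ⟨i0, h⟩ := cond_and h
  obtain ⟨i1, h⟩ := cond_and h
  obtain ⟨i2, h⟩ := cond_and h
  obtain ⟨i3, h⟩ := cond_and h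
  obtain ⟨i4, h⟩ := cond_and h
  exact ⟨Nat.le_of_ble_eq_true i0, Nat.le_of_ble_eq_true i1, Nat.le_of_ble_eq_true i2,
    Nat.le_of_ble_eq_true i3, Nat.le_of_ble_eq_true i4, Nat.le_of_ble_eq_true h⟩

theorem q2_comm (i j : ℕ) : q2 i j = q2 j i := by
  unfold q2 qn2; rw [look_comm]
theorem q2_le (i j : ℕ) : q2 i j ≤ 2 ^ 48 := qz_le 48 TX 140737488355328 i j
theorem psdTwo {V : Type} (s : Finset V) (I : V → ℕ) (hI : ∀ x ∈ s, I x < 72) :
    0 ≤ ∑ x ∈ s, ∑ y ∈ s, q2 (I x) (I y) := psdX s I hI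

end

end Pool.Agent.Helper3.CC
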