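import Pool.Agent.Helper3.CC.All
import Pool.Agent.Helper3.RB.Rob

/-! The inequality for all 3-graphs: the data. -/

set_option autoImplicit false
set_option linter.unusedVariables false
set_option maxRecDepth 1000000
set_option maxHeartbeats 40000000
open Finset

namespace Pool.Agent.Helper3.CC

open Pool.Agent.Helper3.OP Pool.Agent.Helper3.RB

/-- the largest entry of a table -/
def mxc (T n B : ℕ) : Bool := allb n fun i => allb (Nat.succ i) fun j => Nat.ble (look 48 T i j) B

theorem mxc_le {T n B : ℕ} (h : mxc T n B = true) {i j : ℕ} (hi : i < n) (hj : j < n) :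
    look 48 T i j ≤ B := by
  rcases Nat.le_total j i with h1 | h1
  · exact Nat.le_of_ble_eq_true (allb_true (allb_true h hi) (Nat.lt_succ_of_le h1))
  · rw [look_comm]
    exact Nat.le_of_ble_eq_true (allb_true (allb_true h hj) (Nat.lt_succ_of_le h1))

theorem mx0 : mxc T0 (N 0) 141076790771712 = true := by decide +kernel
theorem mx2 : mxc T2 (N 2) 141076790771712 = true := by decide +kernel
theorem mx3 : mxc T3 (N 3) 141076790771712 = true := by decide +kernel
theorem mx4 : mxc T4 (N 4) 141076790771712 = true := by decide +kernel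
theorem mx5 : mxc T5 (N 5) 141076790771712 = true := by decide +kernel
theorem mx6 : mxc T6 (N 6) 141076790771712 = true := by decide +kernel
theorem mx7 : mxc T7 (N 7) 141076790771712 = true := by decide +kernel
theorem mx9 : mxc T9 (N 9) 141076790771712 = true := by decide +kernel
theorem mx10 : mxc T10 (N 10) 141076790771712 = true := by decide +kernel
theorem mx11 : mxc T11 (N 11) 141076790771712 = true := by decide +kernel
theorem mx12 : mxc T12 (N 12) 141076790771712 = true := by decide +kernel
theorem mx14 : mxc T14 (N 14) 141076790771712 = true := by decide +kernel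
theorem mxX : mxc TX 72 141076790771712 = true := by decide +kernel

theorem qmax (t : ℕ) (ht : ok t = true) (i : ℕ) (hi : i < N t) (j : ℕ) (hj : j < N t) :
    q t i j ≤ 339302416384 := by
  have key : look 48 (TT t) i j ≤ 141076790771712 := by
    rcases ok_cases ht with rfl | rfl | rfl | rfl | rfl | rfl | rfl | rfl | rfl | rfl | rfl | rfl
    · exact mxc_le mx0 hi hj
    · exact mxc_le mx2 hi hj
    · exact mxc_le mx3 hi hj
    · exact mxc_le mx4 hi hj
    · exact mxc_le mx5 hi hj
    · exact mxc_le mx6 hi hj
    · exact mxc_le mx7 hi hj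
    · exact mxc_le mx9 hi hj
    · exact mxc_le mx10 hi hj
    · exact mxc_le mx11 hi hj
    · exact mxc_le mx12 hi hj
    · exact mxc_le mx14 hi hj
  have h2 : ((look 48 (TT t) i j : ℕ) : ℤ) ≤ 141076790771712 := by exact_mod_cast key
  unfold q qn
  push_cast
  linarith

theorem qmax2 (i : ℕ) (hi : i < 72) (j : ℕ) (hj : j < 72) : q2 i j ≤ 339302416384 := by
  have h2 : ((look 48 TX i j : ℕ) : ℤ) ≤ 141076790771712 := by exact_mod_cast mxc_le mxX hi hj
  unfold q2 qn2
  push_cast
  linarith

theorem rob (V : Type) [Fintype V] [LinearOrder V] (H : Finset (Finset V))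
    (h3 : ∀ A ∈ H, A.card = 3) :
    9 * 51539607552 * ((Fintype.card V - 3).choose 3 : ℕ) * (H.card : ℝ) ≤
      100 * 51539607552 * ((Fintype.card V).choose 6 : ℕ) +
      (25 * 339302416384) * ((Fintype.card V).choose 4 : ℕ) * (Fintype.card V : ℕ) +
      (870 * 51539607552) * ((Fintype.card V - 4).choose 2 : ℕ) * ((badT ok H).card : ℝ) := by
  have h := main_rob (H := H) (ok := ok) h3 (κ := 51539607552) (by norm_num) ixok q_comm psd
    (M := 339302416384) (by norm_num) qmax ix2ok q2_comm psdTwo (M2 := 339302416384) (by norm_num)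
    qmax2 leaf_ok
  have h2 : ((9 * 51539607552 * ((Fintype.card V - 3).choose 3 : ℕ) * H.card : ℤ) : ℝ) ≤
      ((100 * 51539607552 * ((Fintype.card V).choose 6 : ℕ) +
      (339302416384 + 24 * 339302416384) * ((Fintype.card V).choose 4 : ℕ) * Fintype.card V +
      (80 * 51539607552 + 30 * 339302416384 + 90 * 339302416384) *
        ((Fintype.card V - 4).choose 2 : ℕ) * (badT ok H).card : ℤ) : ℝ) := by
    exact_mod_cast h
  push_cast at h2 ⊢
  linarith

/-- the inequality without error term -/
theorem robust (hBL : S_BL) (hLIM : S_LIM) (V : Type) [Fintype V] [LinearOrder V]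
    (H : Finset (Finset V)) (h3 : ∀ A ∈ H, A.card = 3) :
    (Fintype.card V : ℝ) * H.card ≤ 5 / 54 * (Fintype.card V : ℝ) ^ 4 + 290 * (badT ok H).card := by
  have hb : (badT ok H).card ≤ (Fintype.card V).choose 4 := by
    unfold badT
    refine (card_filter_le _ _).trans (le_of_eq ?_)
    unfold P
    rw [card_powersetCard, card_univ]
  have h := hLIM 51539607552 (25 * 339302416384) (870 * 51539607552) (by norm_num) (by norm_num)
    (by norm_num) (Fintype.card V) H.card (badT ok H).card hb (fun m => (bl H m).card)
    (fun m => (badT ok (bl H m)).card) (fun m => card_bl m h3)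
    (fun m => hBL ok (by decide +kernel) (by decide +kernel) (by decide +kernel) (by decide +kernel)
      V H h3 m) (fun m _ => by
      have h2 : Fintype.card (V ×ₗ Fin m) = Fintype.card V * m := by
        rw [show Fintype.card (V ×ₗ Fin m) = Fintype.card (V × Fin m) from rfl, Fintype.card_prod,
          Fintype.card_fin]
      have h1 := rob (V ×ₗ Fin m) (bl H m) (fun A hA => by
        unfold bl at hA
        exact mem_P.1 (mem_filter.1 hA).1)
      rw [h2] at h1
      exact h1)
  refine h.trans (le_of_eq ?_)
  norm_num

end Pool.Agent.Helper3.CC
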